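import Pool.Agent.Helper74.SO2.Main

/-! MP_2d033b_gt (weak smoothability of compact Alexandrov spaces): limits of cohomogeneity one
manifolds; the isotropy orbits of the limit are equivariant images of round spheres. -/

namespace Pool.Agent.Results.MP_2d033b_gt.NormalSphereImages

open Pool.Agent.Helper54.SO Pool.Agent.Helper74.SO2 Filter Topology Set Metric

/-- Let `N n → X` (`Approx`), `X` compact, where `N n` contains a tube `D n` of radius `T` round the
orbit of `p_n = γ_n 0` of a manifold of cohomogeneity one and of curvature at least `-k²`. Let `G` be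
the group of the isometries of `X` which are limits of elements of the groups, `o` the limit of the
points `p_n` and `x` the limit of the points `γ_n (t n)`. Then the orbit of `x` under the isotropy
group of `o` in `G` is the image of the unit sphere of the Euclidean space of dimension `d` (the
dimension of the normal spaces) under a continuous map `P`, which is equivariant for a group of
orthogonal maps which is transitive on the sphere. -/
theorem result {E Γ : ℕ → Type*} [∀ n, NormedAddCommGroup (E n)]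
    [∀ n, InnerProductSpace ℝ (E n)] [∀ n, FiniteDimensional ℝ (E n)] [∀ n, Group (Γ n)] {k T : ℝ}
    (hk : 0 < k) (D : ∀ n, Tube (E n) (Γ n) k T) (m d : ℕ) (hm : ∀ n, (D n).dim ≤ m)
    (hd : ∀ n, Module.finrank ℝ (nrm (D n).toEnd) = d)
    {X : Type*} [MetricSpace X] [CompactSpace X]
    (ε : ℕ → ℝ) (hε : Tendsto ε atTop (𝓝 0)) (A : ∀ n, Approx (D n) X (ε n))
    (t : ℕ → ℝ) (ht : ∀ n, t n ∈ Ioo 0 T) (U : Ultrafilter ℕ) (hU : (U : Filter ℕ) ≤ atTop)
    (o x : X) (ho : Tendsto (fun n => (A n).F ((D n).γ 0)) U (𝓝 o))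
    (hx : Tendsto (fun n => (A n).F ((D n).γ (t n))) U (𝓝 x)) :
    ∃ P : EuclideanSpace ℝ (Fin d) → X, ContinuousOn P (sphere 0 1) ∧
      P '' sphere 0 1 = {y | ∃ (h : ∀ n, Γ n) (g : X ≃ᵢ X), IsLimit A U h g ∧ g o = o ∧ g x = y} ∧
      ∀ u ∈ sphere (0 : EuclideanSpace ℝ (Fin d)) 1, ∀ v ∈ sphere (0 : EuclideanSpace ℝ (Fin d)) 1,
        ∃ (a : EuclideanSpace ℝ (Fin d) ≃ₗᵢ[ℝ] EuclideanSpace ℝ (Fin d)) (h : ∀ n, Γ n)
          (g : X ≃ᵢ X), IsLimit A U h g ∧ g o = o ∧ a u = v ∧
          ∀ w ∈ sphere (0 : EuclideanSpace ℝ (Fin d)) 1, P (a w) = g (P w) :=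
  main hk D m d hm hd ε hε A t ht U hU o x ho hx

end Pool.Agent.Results.MP_2d033b_gt.NormalSphereImages
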